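import Pool.Agent.Q181.Toep.Spec

open Set Topology Filter Metric
open scoped InnerProductSpace

namespace MP895317

theorem average_step (g : H2) {r : ℝ} (h0 : 0 < r) (h1 : r < 1) :
    Real.circleAverage (fun z => ‖ev g z‖ ^ 2) 0 r =
      ‖g 0‖ ^ 2 + r ^ 2 * Real.circleAverage (fun z => ‖ev (B g) z‖ ^ 2) 0 r := by
  have hd : DifferentiableOn ℂ (fun z => (2 * starRingEnd ℂ (g 0)) * (z * ev (B g) z)) (ball 0 1) :=
    (differentiableOn_id.mul (ev_diff (B g))).const_mul _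
  have hmean : Real.circleAverage (fun z => (2 * starRingEnd ℂ (g 0)) * (z * ev (B g) z)) 0 r = 0 := by
    rw [DiffContOnCl.circleAverage]
    · simp
    · rw [abs_of_pos h0]
      apply DifferentiableOn.diffContOnCl
      rw [closure_ball _ h0.ne']
      exact hd.mono (closedBall_subset_ball h1)
  have hint : CircleIntegrable (fun z => (2 * starRingEnd ℂ (g 0)) * (z * ev (B g) z)) 0 r :=
    ContinuousOn.circleIntegrable' (hd.continuousOn.mono (sphere_sub h0 h1))
  have hre : Real.circleAverage (fun z => ((2 * starRingEnd ℂ (g 0)) * (z * ev (B g) z)).re) 0 r = 0 := by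
    have := Complex.reCLM.circleAverage_comp_comm hint
    rw [hmean, map_zero] at this
    exact this
  have hint1 : CircleIntegrable (fun z => ((2 * starRingEnd ℂ (g 0)) * (z * ev (B g) z)).re) 0 r :=
    ContinuousOn.circleIntegrable' (Complex.continuous_re.comp_continuousOn
      (hd.continuousOn.mono (sphere_sub h0 h1)))
  have hint2 : CircleIntegrable (fun z => r ^ 2 * ‖ev (B g) z‖ ^ 2) 0 r :=
    ContinuousOn.circleIntegrable' (continuousOn_const.mul
      (((ev_diff (B g)).continuousOn.mono (sphere_sub h0 h1)).norm.pow 2))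
  have hint3 : CircleIntegrable (fun _ : ℂ => ‖g 0‖ ^ 2) 0 r :=
    ContinuousOn.circleIntegrable' continuousOn_const
  have e1 : Real.circleAverage (fun z => ‖ev g z‖ ^ 2) 0 r = Real.circleAverage
      (fun z => (‖g 0‖ ^ 2 + ((2 * starRingEnd ℂ (g 0)) * (z * ev (B g) z)).re)
        + r ^ 2 * ‖ev (B g) z‖ ^ 2) 0 r := by
    apply Real.circleAverage_congr_sphere
    intro z hz
    beta_reduce
    have hz1 : ‖z‖ < 1 := mem_ball_zero_iff.1 (sphere_sub h0 h1 hz)
    have hzr : ‖z‖ = r := by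
      rw [mem_sphere_zero_iff_norm, abs_of_pos h0] at hz; exact hz
    rw [ev_split g hz1]
    have h2 : ‖g 0 + z * ev (B g) z‖ ^ 2 = ‖g 0‖ ^ 2 + 2 * (⟪g 0, z * ev (B g) z⟫_ℂ).re
        + ‖z * ev (B g) z‖ ^ 2 := norm_add_sq (𝕜 := ℂ) _ _
    rw [h2, norm_mul, hzr]
    have h3 : ⟪g 0, z * ev (B g) z⟫_ℂ = z * ev (B g) z * starRingEnd ℂ (g 0) := rfl
    rw [h3]
    have h4 : (2 * starRingEnd ℂ (g 0)) * (z * ev (B g) z) =
      ((2 : ℝ) : ℂ) * (z * ev (B g) z * starRingEnd ℂ (g 0)) := by push_cast; ring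
    rw [h4, Complex.re_ofReal_mul]
    ring
  have hint4 : CircleIntegrable
      (fun z => ‖g 0‖ ^ 2 + ((2 * starRingEnd ℂ (g 0)) * (z * ev (B g) z)).re) 0 r := hint3.add hint1
  rw [e1, Real.circleAverage_fun_add hint4 hint2, Real.circleAverage_fun_add hint3 hint1,
    hre, Real.circleAverage_const]
  have e2 : Real.circleAverage (fun z => r ^ 2 * ‖ev (B g) z‖ ^ 2) 0 r =
      r ^ 2 * Real.circleAverage (fun z => ‖ev (B g) z‖ ^ 2) 0 r :=
    Real.circleAverage_fun_smul (a := r ^ 2) (f := fun z => ‖ev (B g) z‖ ^ 2)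
  rw [e2]; ring

theorem parseval_lower (N : ℕ) : ∀ (g : H2) {r : ℝ}, 0 < r → r < 1 →
    ∑ n ∈ Finset.range N, ‖g n‖ ^ 2 * r ^ (2 * n) ≤ Real.circleAverage (fun z => ‖ev g z‖ ^ 2) 0 r := by
  induction N with
  | zero =>
    intro g r h0 h1
    rw [Finset.sum_range_zero]
    exact Real.circleAverage_nonneg_of_nonneg fun z _ => by positivity
  | succ N ih =>
    intro g r h0 h1
    rw [Finset.sum_range_succ', average_step g h0 h1]
    have h2 := mul_le_mul_of_nonneg_left (ih (B g) h0 h1) (sq_nonneg r)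
    rw [Finset.mul_sum] at h2
    have h3 : ∑ k ∈ Finset.range N, ‖g (k + 1)‖ ^ 2 * r ^ (2 * (k + 1)) =
        ∑ k ∈ Finset.range N, r ^ 2 * (‖B g k‖ ^ 2 * r ^ (2 * k)) := by
      apply Finset.sum_congr rfl
      intro k _
      rw [B_apply]; ring
    rw [h3]
    simp only [mul_zero, pow_zero, mul_one]
    linarith

/-- a comparison principle: `|g| ≤ C |k|` near the boundary implies `‖g‖ ≤ C ‖k‖`. -/
theorem norm_le_of_near {g k : H2} {C r₀ : ℝ} (hC : 0 ≤ C) (h0 : 0 < r₀) (h1 : r₀ < 1)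
    (h : ∀ z : ℂ, r₀ < ‖z‖ → ‖z‖ < 1 → ‖ev g z‖ ≤ C * ‖ev k z‖) : ‖g‖ ≤ C * ‖k‖ := by
  have hsum : ∀ N : ℕ, ∑ n ∈ Finset.range N, ‖g n‖ ^ 2 ≤ (C * ‖k‖) ^ 2 := by
    intro N
    have hr : ∀ r : ℝ, r₀ < r → r < 1 →
        ∑ n ∈ Finset.range N, ‖g n‖ ^ 2 * r ^ (2 * n) ≤ (C * ‖k‖) ^ 2 := by
      intro r hr0 hr1
      have hrpos : 0 < r := h0.trans hr0
      refine (parseval_lower N g hrpos hr1).trans ?_
      have hg : CircleIntegrable (fun z => ‖ev g z‖ ^ 2) 0 r :=
        ContinuousOn.circleIntegrable' (((ev_diff g).continuousOn.mono (sphere_sub hrpos hr1)).norm.pow 2)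
      have hk : CircleIntegrable (fun z => C ^ 2 * ‖ev k z‖ ^ 2) 0 r :=
        ContinuousOn.circleIntegrable' (continuousOn_const.mul
          (((ev_diff k).continuousOn.mono (sphere_sub hrpos hr1)).norm.pow 2))
      have hle : Real.circleAverage (fun z => ‖ev g z‖ ^ 2) 0 r ≤
          Real.circleAverage (fun z => C ^ 2 * ‖ev k z‖ ^ 2) 0 r := by
        apply Real.circleAverage_mono hg hk
        intro z hz
        have hzr : ‖z‖ = r := by
          rw [mem_sphere_zero_iff_norm, abs_of_pos hrpos] at hz; exact hz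
        have := h z (by rw [hzr]; exact hr0) (by rw [hzr]; exact hr1)
        rw [← mul_pow]
        exact pow_le_pow_left₀ (norm_nonneg _) this 2
      refine hle.trans ?_
      have e2 : Real.circleAverage (fun z => C ^ 2 * ‖ev k z‖ ^ 2) 0 r =
          C ^ 2 * Real.circleAverage (fun z => ‖ev k z‖ ^ 2) 0 r :=
        Real.circleAverage_fun_smul (a := C ^ 2) (f := fun z => ‖ev k z‖ ^ 2)
      rw [e2, mul_pow]
      have hlw := littlewood id differentiableOn_id (fun _ hx => hx) k r hrpos hr1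
      simp only [id_eq, norm_zero, sub_zero, div_one] at hlw
      exact mul_le_mul_of_nonneg_left hlw (sq_nonneg C)
    have hcont : Tendsto (fun r : ℝ => ∑ n ∈ Finset.range N, ‖g n‖ ^ 2 * r ^ (2 * n)) (𝓝[<] 1)
        (𝓝 (∑ n ∈ Finset.range N, ‖g n‖ ^ 2)) := by
      have h2 : Continuous (fun r : ℝ => ∑ n ∈ Finset.range N, ‖g n‖ ^ 2 * r ^ (2 * n)) := by fun_prop
      have h3 := h2.tendsto 1
      simp only [one_pow, mul_one] at h3
      exact h3.mono_left nhdsWithin_le_nhds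
    apply le_of_tendsto hcont
    have h4 : ∀ᶠ r : ℝ in 𝓝[<] 1, r < 1 := eventually_mem_nhdsWithin
    have h5 : ∀ᶠ r : ℝ in 𝓝[<] 1, r₀ < r := nhdsWithin_le_nhds (Ioi_mem_nhds h1)
    filter_upwards [h4, h5] with r h6 h7 using hr r h7 h6
  have hn : ‖g‖ ^ 2 ≤ (C * ‖k‖) ^ 2 := by
    rw [norm_sq]
    exact (summable_sq g).tsum_le_of_sum_range_le hsum
  exact (pow_le_pow_iff_left₀ (norm_nonneg _) (by positivity) two_ne_zero).1 hn

theorem hypercyclic_of_iterate {T : H2 →L[ℂ] H2}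
    (h : ∃ x : H2, DenseRange fun n : ℕ => (⇑T)^[n] x) : Hypercyclic T := by
  obtain ⟨x, hx⟩ := h
  refine ⟨x, ?_⟩
  have : (fun n : ℕ => (T ^ n) x) = fun n : ℕ => (⇑T)^[n] x := by
    funext n
    induction n with
    | zero => rfl
    | succ n ih => rw [pow_apply_succ, Function.iterate_succ_apply', ih]
  rw [this]
  exact hx

theorem norm_one : ‖one‖ = 1 := by
  have : ‖one‖ ^ 2 = 1 := by
    rw [norm_sq, tsum_eq_single 0]
    · rw [one_zero]; simp
    · intro n hn
      obtain ⟨k, rfl⟩ := Nat.exists_eq_succ_of_ne_zero hn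
      rw [one_succ]; simp
  nlinarith [norm_nonneg one]

theorem norm_S (f : H2) : ‖S f‖ = ‖f‖ := norm_Sfun f

theorem not_spectrum_of_image {γ : ℂ} {φ : ℂ → ℂ} {T : H2 →L[ℂ] H2}
    (hφ : DifferentiableOn ℂ φ (ball 0 1)) (hA : Acts γ φ T) (hT : Hypercyclic T) {z₀ : ℂ}
    (hz₀ : ‖z₀‖ < 1) (hz0 : z₀ ≠ 0) : γ / z₀ + φ z₀ ∉ spectrum ℂ T := by
  set lam := γ / z₀ + φ z₀ with hlam
  have hinj := injective_symbol hA hT
  have hU : IsOpen (ball (0 : ℂ) 1 \ {0}) := isOpen_ball.sdiff isClosed_singleton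
  have hzU : z₀ ∈ ball (0 : ℂ) 1 \ {0} := ⟨mem_ball_zero_iff.2 hz₀, hz0⟩
  set Φ : ℂ → ℂ := fun z => γ / z + φ z with hΦdef
  have hΦ : DifferentiableOn ℂ Φ (ball (0 : ℂ) 1 \ {0}) := by
    apply DifferentiableOn.add
    · exact (differentiableOn_const γ).div differentiableOn_id fun z hz => hz.2
    · exact hφ.mono sdiff_subset
  -- a small disc around z₀
  obtain ⟨ε, hε, hεU⟩ := Metric.isOpen_iff.1 hU z₀ hzU
  obtain ⟨δ, hδ, hδs⟩ : ∃ δ > 0, ball lam δ ⊆ Φ '' (ball z₀ (ε / 2)) := by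
    have han : AnalyticAt ℂ Φ z₀ := hΦ.analyticAt (hU.mem_nhds hzU)
    rcases han.eventually_constant_or_nhds_le_map_nhds with h | h
    · exact absurd h (not_eventually_const hU hinj hzU)
    · have h2 : Φ '' (ball z₀ (ε / 2)) ∈ 𝓝 (Φ z₀) :=
        h (image_mem_map (ball_mem_nhds z₀ (half_pos hε)))
      exact Metric.mem_nhds_iff.1 h2
  have hfar : ∀ z ∈ ball (0 : ℂ) 1 \ {0}, z ∉ ball z₀ (ε / 2) → δ ≤ ‖Φ z - lam‖ := by
    intro z hz hzε
    by_contra hcon
    rw [not_le, ← dist_eq_norm] at hcon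
    obtain ⟨z', hz', he⟩ := hδs (mem_ball.2 hcon)
    have : z' = z := hinj (hεU (ball_subset_ball (by linarith) hz')) hz he
    exact hzε (this ▸ hz')
  -- the radius
  have hsmall : ‖z₀‖ + ε / 2 < 1 := by
    have hlt : ‖z₀‖ + ε ≤ 1 := by
      by_contra hcon
      rw [not_le] at hcon
      have hpos : 0 < ‖z₀‖ := norm_pos_iff.2 hz0
      set t : ℝ := (1 - ‖z₀‖) / ‖z₀‖ with ht
      have ht0 : 0 < t := div_pos (by linarith) hpos
      have hmem : z₀ + (t : ℂ) * z₀ ∈ ball z₀ ε := by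
        rw [mem_ball, dist_eq_norm, add_sub_cancel_left, norm_mul, Complex.norm_real,
          Real.norm_eq_abs, abs_of_pos ht0, ht, div_mul_cancel₀ _ hpos.ne']
        linarith
      have h2 := mem_ball_zero_iff.1 (hεU hmem).1
      have h3 : z₀ + (t : ℂ) * z₀ = ((1 + t : ℝ) : ℂ) * z₀ := by push_cast; ring
      rw [h3, norm_mul, Complex.norm_real, Real.norm_eq_abs, abs_of_pos (by linarith)] at h2
      have h4 : (1 + t) * ‖z₀‖ = 1 := by rw [ht]; field_simp; ring
      linarith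
    linarith
  set r₀ : ℝ := ‖z₀‖ + ε / 2 with hr₀
  have hr₀pos : 0 < r₀ := by have := norm_nonneg z₀; positivity
  -- bounded below
  have hbdd : ∀ g : H2, ‖g‖ ≤ (r₀ * δ)⁻¹ * (1 + (1 - ‖z₀‖)⁻¹) * ‖T g - lam • g‖ := by
    intro g
    set h := T g - lam • g with hh
    have hact : ∀ z : ℂ, ‖z‖ < 1 → z * ev h z = (γ + z * (φ z - lam)) * ev g z - γ * g 0 := by
      intro z hz
      have e1 := hA g z hz
      have e2 : ev h z = ev (T g) z - lam * ev g z := by
        have : h = T g + (-lam) • g := by rw [hh, neg_smul, sub_eq_add_neg]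
        rw [this, ev_add _ _ hz, ev_smul]; ring
      rw [e2]
      linear_combination e1
    have hact0 := hact z₀ hz₀
    have hD0 : γ + z₀ * (φ z₀ - lam) = 0 := by
      rw [hlam]; field_simp; ring
    rw [hD0, zero_mul, zero_sub] at hact0
    set k : H2 := S h + (-(z₀ * ev h z₀)) • one with hk
    have hkev : ∀ z : ℂ, ‖z‖ < 1 → ev k z = (γ + z * (φ z - lam)) * ev g z := by
      intro z hz
      rw [hk, ev_add _ _ hz, ev_smul, ev_S _ hz, ev_one, hact z hz, hact0]
      ring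
    have hkn : ‖k‖ ≤ (1 + (1 - ‖z₀‖)⁻¹) * ‖h‖ := by
      have h2 : ‖ev h z₀‖ ≤ (1 - ‖z₀‖)⁻¹ * ‖h‖ := by
        have h3 := (evL z₀ hz₀).le_opNorm h
        have h4 : ‖evL z₀ hz₀‖ ≤ (1 - ‖z₀‖)⁻¹ := by
          apply LinearMap.mkContinuous_norm_le
          exact inv_nonneg.2 (by linarith)
        rw [evL_apply] at h3
        exact h3.trans (mul_le_mul_of_nonneg_right h4 (norm_nonneg _))
      have h5 : ‖(-(z₀ * ev h z₀)) • one‖ ≤ (1 - ‖z₀‖)⁻¹ * ‖h‖ := by
        rw [norm_smul, norm_one, mul_one, norm_neg, norm_mul]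
        exact (mul_le_of_le_one_left (norm_nonneg _) hz₀.le).trans h2
      calc ‖k‖ ≤ ‖S h‖ + ‖(-(z₀ * ev h z₀)) • one‖ := norm_add_le _ _
        _ ≤ ‖h‖ + (1 - ‖z₀‖)⁻¹ * ‖h‖ := by rw [norm_S]; linarith
        _ = _ := by ring
    have hcmp : ‖g‖ ≤ (r₀ * δ)⁻¹ * ‖k‖ := by
      apply norm_le_of_near (by positivity) hr₀pos hsmall
      intro z hz1 hz2
      have hz0' : z ≠ 0 := by
        rintro rfl
        rw [_root_.norm_zero] at hz1
        linarith
      have hzU' : z ∈ ball (0 : ℂ) 1 \ {0} := ⟨mem_ball_zero_iff.2 hz2, hz0'⟩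
      have hzε : z ∉ ball z₀ (ε / 2) := by
        intro hmem
        rw [mem_ball, dist_eq_norm] at hmem
        have := norm_sub_norm_le z z₀
        linarith
      have h2 := hfar z hzU' hzε
      have h3 : γ + z * (φ z - lam) = z * (Φ z - lam) := by
        rw [hΦdef]; field_simp; ring
      rw [hkev z hz2, norm_mul, h3, norm_mul]
      have h4 : r₀ * δ ≤ ‖z‖ * ‖Φ z - lam‖ := mul_le_mul hz1.le h2 hδ.le (norm_nonneg _)
      rw [inv_mul_eq_div, le_div_iff₀ (by positivity), mul_comm]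
      exact mul_le_mul_of_nonneg_right h4 (norm_nonneg _)
    calc ‖g‖ ≤ (r₀ * δ)⁻¹ * ‖k‖ := hcmp
      _ ≤ (r₀ * δ)⁻¹ * ((1 + (1 - ‖z₀‖)⁻¹) * ‖h‖) := mul_le_mul_of_nonneg_left hkn (by positivity)
      _ = _ := by ring
  rw [spectrum.notMem_iff]
  have hunit : IsUnit (T - algebraMap ℂ (H2 →L[ℂ] H2) lam) := by
    have happ : ∀ g : H2, (T - algebraMap ℂ (H2 →L[ℂ] H2) lam) g = T g - lam • g := by
      intro g
      simp [Algebra.algebraMap_eq_smul_one]
    rw [ContinuousLinearMap.isUnit_iff_bijective,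
      ContinuousLinearMap.bijective_iff_dense_range_and_antilipschitz]
    constructor
    · rw [Submodule.topologicalClosure_eq_top_iff, Submodule.eq_bot_iff]
      intro y hy
      have hy2 : ∀ f : H2, ⟪y, T f - lam • f⟫_ℂ = 0 := by
        intro f
        rw [Submodule.mem_orthogonal'] at hy
        have := hy _ ⟨f, rfl⟩
        rw [← happ f]
        exact this
      have hl : innerSL ℂ y = 0 := by
        apply no_eigenfunctional hT _ lam
        intro f
        have := hy2 f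
        rw [inner_sub_right, inner_smul_right, sub_eq_zero] at this
        rw [innerSL_apply_apply, innerSL_apply_apply]
        exact this
      have h5 := congrArg (fun l : H2 →L[ℂ] ℂ => l y) hl
      simp only [innerSL_apply_apply, zero_apply] at h5
      exact inner_self_eq_zero.1 h5
    · have hKpos : 0 ≤ (r₀ * δ)⁻¹ * (1 + (1 - ‖z₀‖)⁻¹) := by
        have : 0 < 1 - ‖z₀‖ := by linarith
        positivity
      refine ⟨⟨(r₀ * δ)⁻¹ * (1 + (1 - ‖z₀‖)⁻¹), hKpos⟩, ?_⟩
      apply ContinuousLinearMap.antilipschitz_of_bound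
      intro g
      rw [happ]
      exact hbdd g
  rw [← IsUnit.neg_iff, neg_sub]
  exact hunit

end MP895317
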