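import Mathlib

open Set Topology Filter Metric

namespace MP895317

/-- The Hardy space `H²`, as the space of square summable Taylor coefficient sequences. -/
noncomputable abbrev H2 := lp (fun _ : ℕ => ℂ) 2

/-- The analytic function `z ↦ ∑ fₙ zⁿ` of an element of `H²`. -/
noncomputable def ev (f : H2) (z : ℂ) : ℂ := ∑' n, f n * z ^ n

theorem coord_le (f : H2) (n : ℕ) : ‖f n‖ ≤ ‖f‖ := lp.norm_apply_le_norm (by simp) f n

theorem summable_ev (f : H2) {z : ℂ} (hz : ‖z‖ < 1) : Summable fun n => f n * z ^ n := by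
  refine Summable.of_norm_bounded (g := fun n => ‖f‖ * ‖z‖ ^ n) ?_ ?_
  · exact (summable_geometric_of_lt_one (norm_nonneg _) hz).mul_left _
  · intro n
    rw [norm_mul, norm_pow]
    exact mul_le_mul_of_nonneg_right (coord_le f n) (by positivity)

/-- power series with bounded coefficients are holomorphic in the disc -/
theorem diff_of_bounded (c : ℕ → ℂ) (C : ℝ) (hc : ∀ n, ‖c n‖ ≤ C) :
    DifferentiableOn ℂ (fun z : ℂ => ∑' n, c n * z ^ n) (ball 0 1) := by
  have hC : 0 ≤ C := (norm_nonneg _).trans (hc 0)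
  intro z hz
  rw [mem_ball_zero_iff] at hz
  obtain ⟨r, hr1, hr2⟩ := exists_between hz
  have hr0 : 0 ≤ r := (norm_nonneg z).trans hr1.le
  have : DifferentiableOn ℂ (fun z : ℂ => ∑' n, c n * z ^ n) (ball 0 r) := by
    apply Complex.differentiableOn_tsum_of_summable_norm (u := fun n => C * r ^ n)
    · exact (summable_geometric_of_lt_one hr0 hr2).mul_left _
    · intro n; fun_prop
    · exact isOpen_ball
    · intro n w hw
      rw [mem_ball_zero_iff] at hw
      rw [norm_mul, norm_pow]
      gcongr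
      exact hc n
  exact (this.differentiableAt (isOpen_ball.mem_nhds (mem_ball_zero_iff.2 hr1))).differentiableWithinAt

theorem ev_diff (f : H2) : DifferentiableOn ℂ (ev f) (ball 0 1) :=
  diff_of_bounded f ‖f‖ (coord_le f)

theorem ev_zero (f : H2) : ev f 0 = f 0 := by
  rw [ev, tsum_eq_single 0]
  · simp
  · intro n hn; simp [hn]

theorem summable_sq (f : H2) : Summable fun n => ‖f n‖ ^ 2 := by
  have h := (lp.memℓp f).summable (by norm_num)
  simpa using h

theorem norm_sq (f : H2) : ‖f‖ ^ 2 = ∑' n, ‖f n‖ ^ 2 := by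
  have h := lp.norm_rpow_eq_tsum (p := 2) (by norm_num) f
  simpa using h

theorem memlp_of_summable {a : ℕ → ℂ} (h : Summable fun n => ‖a n‖ ^ 2) : Memℓp a 2 := by
  apply memℓp_gen
  simpa using h

/-- the backward shift as a function -/
noncomputable def Bfun (f : H2) : H2 :=
  ⟨fun n => f (n + 1), memlp_of_summable ((summable_nat_add_iff 1).2 (summable_sq f))⟩

@[simp] theorem Bfun_apply (f : H2) (n : ℕ) : Bfun f n = f (n + 1) := rfl

theorem norm_sq_split (f : H2) : ‖f‖ ^ 2 = ‖f 0‖ ^ 2 + ‖Bfun f‖ ^ 2 := by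
  rw [norm_sq, norm_sq, (summable_sq f).tsum_eq_zero_add]
  rfl

/-- the backward shift -/
noncomputable def B : H2 →L[ℂ] H2 :=
  LinearMap.mkContinuous
    { toFun := Bfun
      map_add' := fun f g => by ext n; simp
      map_smul' := fun c f => by ext n; simp } 1 (by
    intro f
    rw [one_mul]
    have h := norm_sq_split f
    have h2 : ‖Bfun f‖ ^ 2 ≤ ‖f‖ ^ 2 := by nlinarith [norm_nonneg (f 0)]
    exact (pow_le_pow_iff_left₀ (norm_nonneg _) (norm_nonneg _) two_ne_zero).1 h2)

@[simp] theorem B_apply (f : H2) (n : ℕ) : B f n = f (n + 1) := rfl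

theorem norm_B_le (f : H2) : ‖B f‖ ≤ ‖f‖ := by
  have h := norm_sq_split f
  have h2 : ‖B f‖ ^ 2 ≤ ‖f‖ ^ 2 := by
    have : ‖B f‖ = ‖Bfun f‖ := rfl
    rw [this]; nlinarith [norm_nonneg (f 0)]
  exact (pow_le_pow_iff_left₀ (norm_nonneg _) (norm_nonneg _) two_ne_zero).1 h2

/-- the forward shift as a function -/
noncomputable def Sfun (f : H2) : H2 :=
  ⟨fun n => Nat.casesOn n 0 (fun k => f k), memlp_of_summable (by
    rw [← summable_nat_add_iff 1]
    exact summable_sq f)⟩

@[simp] theorem Sfun_zero (f : H2) : Sfun f 0 = 0 := rfl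
@[simp] theorem Sfun_succ (f : H2) (n : ℕ) : Sfun f (n + 1) = f n := rfl

theorem norm_Sfun (f : H2) : ‖Sfun f‖ = ‖f‖ := by
  have h := norm_sq_split (Sfun f)
  have h2 : Bfun (Sfun f) = f := by ext n; simp
  rw [h2] at h
  simp only [Sfun_zero, norm_zero] at h
  have : ‖Sfun f‖ ^ 2 = ‖f‖ ^ 2 := by rw [h]; ring
  exact (pow_left_inj₀ (norm_nonneg _) (norm_nonneg _) two_ne_zero).1 this

/-- the forward shift -/
noncomputable def S : H2 →L[ℂ] H2 :=
  LinearMap.mkContinuous
    { toFun := Sfun
      map_add' := fun f g => by ext n; cases n <;> simp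
      map_smul' := fun c f => by ext n; cases n <;> simp } 1 (by
    intro f
    rw [one_mul]
    exact (norm_Sfun f).le)

@[simp] theorem S_zero (f : H2) : S f 0 = 0 := rfl
@[simp] theorem S_succ (f : H2) (n : ℕ) : S f (n + 1) = f n := rfl

theorem ev_add (f g : H2) {z : ℂ} (hz : ‖z‖ < 1) : ev (f + g) z = ev f z + ev g z := by
  rw [ev, ev, ev, ← (summable_ev f hz).tsum_add (summable_ev g hz)]
  congr 1; funext n; simp [add_mul]

theorem ev_smul (c : ℂ) (f : H2) (z : ℂ) : ev (c • f) z = c * ev f z := by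
  rw [ev, ev, ← tsum_mul_left]
  congr 1; funext n; simp [mul_assoc]

theorem ev_split (f : H2) {z : ℂ} (hz : ‖z‖ < 1) : ev f z = f 0 + z * ev (B f) z := by
  rw [ev, (summable_ev f hz).tsum_eq_zero_add, ev, ← tsum_mul_left]
  congr 1
  · simp
  · congr 1; funext n; simp; ring

theorem ev_S (f : H2) {z : ℂ} (hz : ‖z‖ < 1) : ev (S f) z = z * ev f z := by
  rw [ev_split (S f) hz]
  have : B (S f) = f := by ext n; simp
  rw [this]; simp

/-- evaluation as a continuous linear functional -/
noncomputable def evL (z : ℂ) (hz : ‖z‖ < 1) : H2 →L[ℂ] ℂ :=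
  LinearMap.mkContinuous
    { toFun := fun f => ev f z
      map_add' := fun f g => ev_add f g hz
      map_smul' := fun c f => ev_smul c f z } (1 - ‖z‖)⁻¹ (by
    intro f
    have h1 : ‖ev f z‖ ≤ ∑' n, ‖f‖ * ‖z‖ ^ n := by
      apply tsum_of_norm_bounded
      · exact ((summable_geometric_of_lt_one (norm_nonneg _) hz).mul_left _).hasSum
      · intro n
        rw [norm_mul, norm_pow]
        exact mul_le_mul_of_nonneg_right (coord_le f n) (by positivity)
    rw [tsum_mul_left, tsum_geometric_of_lt_one (norm_nonneg _) hz, mul_comm] at h1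
    exact h1)

@[simp] theorem evL_apply (z : ℂ) (hz : ‖z‖ < 1) (f : H2) : evL z hz f = ev f z := rfl

/-- an element of `H²` is determined by its function -/
theorem eq_zero_of_ev (f : H2) (h : ∀ z : ℂ, ‖z‖ < 1 → ev f z = 0) : f = 0 := by
  have key : ∀ n, ∀ g : H2, (∀ z : ℂ, ‖z‖ < 1 → ev g z = 0) → g n = 0 := by
    intro n
    induction n with
    | zero =>
      intro g hg
      rw [← ev_zero]; exact hg 0 (by simp)
    | succ n ih =>
      intro g hg
      have h0 : g 0 = 0 := by rw [← ev_zero]; exact hg 0 (by simp)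
      have hB : ∀ z : ℂ, ‖z‖ < 1 → ev (B g) z = 0 := by
        have hne : ∀ z : ℂ, ‖z‖ < 1 → z ≠ 0 → ev (B g) z = 0 := by
          intro z hz hz0
          have := ev_split g hz
          rw [hg z hz, h0, zero_add] at this
          rcases mul_eq_zero.1 this.symm with h | h
          · exact absurd h hz0
          · exact h
        intro z hz
        by_cases hz0 : z = 0
        · subst hz0
          have hc : ContinuousAt (ev (B g)) 0 :=
            ((ev_diff (B g)).differentiableAt (isOpen_ball.mem_nhds (mem_ball_self one_pos))).continuousAt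
          have h1 : Tendsto (ev (B g)) (𝓝[≠] 0) (𝓝 (ev (B g) 0)) := hc.tendsto.mono_left nhdsWithin_le_nhds
          have h2 : Tendsto (ev (B g)) (𝓝[≠] 0) (𝓝 0) := by
            refine tendsto_const_nhds.congr' ?_
            have : ∀ᶠ z in 𝓝[≠] (0 : ℂ), ‖z‖ < 1 ∧ z ≠ 0 := by
              refine (Filter.Eventually.and ?_ self_mem_nhdsWithin)
              apply nhdsWithin_le_nhds
              filter_upwards [ball_mem_nhds (0 : ℂ) one_pos] with z hz
              exact mem_ball_zero_iff.1 hz
            filter_upwards [this] with z hz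
            exact (hne z hz.1 hz.2).symm
          exact tendsto_nhds_unique h1 h2
        · exact hne z hz hz0
      have := ih (B g) hB
      simpa using this
  ext n
  exact key n f h

end MP895317
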