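import Pool.Agent.Q181.Toep.Littlewood

open Set Topology Filter Metric

namespace MP895317

theorem not_eventually_const {U : Set ℂ} (hU : IsOpen U) {Φ : ℂ → ℂ} (hinj : InjOn Φ U) {z : ℂ}
    (hz : z ∈ U) : ¬ ∀ᶠ y in 𝓝 z, Φ y = Φ z := by
  intro h
  have h1 : ∀ᶠ y in 𝓝[≠] z, y ≠ z ∧ Φ y = Φ z ∧ y ∈ U :=
    (eventually_mem_nhdsWithin (s := {z}ᶜ)).and ((h.filter_mono nhdsWithin_le_nhds).and
      (Filter.Eventually.filter_mono nhdsWithin_le_nhds (hU.mem_nhds hz)))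
  obtain ⟨y, hy1, hy2, hy3⟩ := h1.exists
  exact hy1 (hinj hy3 hz hy2)

/-- the inverse of an injective holomorphic function is holomorphic -/
theorem inverse_holomorphic {U : Set ℂ} (hU : IsOpen U) {Φ : ℂ → ℂ} (hΦ : DifferentiableOn ℂ Φ U)
    (hinj : InjOn Φ U) {V : Set ℂ} (hV : IsOpen V) (hVU : V ⊆ Φ '' U) :
    ∃ ψ : ℂ → ℂ, DifferentiableOn ℂ ψ V ∧ ∀ w ∈ V, ψ w ∈ U ∧ Φ (ψ w) = w := by
  classical
  have hex : ∀ w, ∃ z, w ∈ Φ '' U → z ∈ U ∧ Φ z = w := by
    intro w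
    by_cases hw : w ∈ Φ '' U
    · obtain ⟨z, hz, rfl⟩ := hw
      exact ⟨z, fun _ => ⟨hz, rfl⟩⟩
    · exact ⟨0, fun h => absurd h hw⟩
  choose ψ hψ using hex
  have hψ1 : ∀ w ∈ V, ψ w ∈ U := fun w hw => (hψ w (hVU hw)).1
  have hψ2 : ∀ w ∈ V, Φ (ψ w) = w := fun w hw => (hψ w (hVU hw)).2
  refine ⟨ψ, ?_, fun w hw => ⟨hψ1 w hw, hψ2 w hw⟩⟩
  have hcont : ∀ w ∈ V, ContinuousAt ψ w := by
    intro w hw
    have hz := hψ1 w hw
    have han : AnalyticAt ℂ Φ (ψ w) := hΦ.analyticAt (hU.mem_nhds hz)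
    rcases han.eventually_constant_or_nhds_le_map_nhds with h | h
    · exact absurd h (not_eventually_const hU hinj hz)
    · rw [hψ2 w hw] at h
      intro N hN
      rw [mem_map]
      have h1 : N ∩ U ∈ 𝓝 (ψ w) := inter_mem hN (hU.mem_nhds hz)
      have h2 : Φ '' (N ∩ U) ∈ 𝓝 w := h (image_mem_map h1)
      filter_upwards [h2] with w' hw'
      obtain ⟨z', hz', rfl⟩ := hw'
      have h3 := hψ (Φ z') ⟨z', hz'.2, rfl⟩
      have h4 : ψ (Φ z') = z' := hinj h3.1 hz'.2 h3.2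
      rw [mem_preimage, h4]
      exact hz'.1
  have hdiff : ∀ w ∈ V, deriv Φ (ψ w) ≠ 0 → DifferentiableAt ℂ ψ w := by
    intro w hw hd
    have hz := hψ1 w hw
    have h1 : HasDerivAt Φ (deriv Φ (ψ w)) (ψ w) :=
      (hΦ.differentiableAt (hU.mem_nhds hz)).hasDerivAt
    exact (HasDerivAt.of_local_left_inverse (hcont w hw) h1 hd
      (by filter_upwards [hV.mem_nhds hw] with y hy using hψ2 y hy)).differentiableAt
  intro w hw
  have hz := hψ1 w hw
  have hdan : AnalyticAt ℂ (deriv Φ) (ψ w) := (hΦ.analyticAt (hU.mem_nhds hz)).deriv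
  have hpunct : ∀ᶠ w' in 𝓝[≠] w, DifferentiableAt ℂ ψ w' := by
    rcases hdan.eventually_eq_zero_or_eventually_ne_zero with h | h
    · exfalso
      obtain ⟨ε, hε, hball⟩ := Metric.mem_nhds_iff.1 (inter_mem h (hU.mem_nhds hz))
      apply not_eventually_const hU hinj hz
      filter_upwards [ball_mem_nhds (ψ w) hε] with y hy
      exact isOpen_ball.is_const_of_deriv_eq_zero (convex_ball _ _).isPreconnected
        (hΦ.mono fun x hx => (hball hx).2) (fun x hx => (hball hx).1) hy (mem_ball_self hε)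
    · have h1 : Tendsto ψ (𝓝[≠] w) (𝓝[≠] (ψ w)) := by
        apply tendsto_nhdsWithin_of_tendsto_nhds_of_eventually_within
        · exact (hcont w hw).tendsto.mono_left nhdsWithin_le_nhds
        · have h2 : ∀ᶠ w' in 𝓝[≠] w, w' ≠ w ∧ w' ∈ V :=
            (eventually_mem_nhdsWithin (s := {w}ᶜ)).and (nhdsWithin_le_nhds (hV.mem_nhds hw))
          filter_upwards [h2] with w' hw'
          intro heq
          apply hw'.1
          rw [← hψ2 w' hw'.2, ← hψ2 w hw]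
          rw [mem_singleton_iff] at heq
          rw [heq]
      have h2 := h1.eventually h
      have h3 : ∀ᶠ w' in 𝓝[≠] w, w' ∈ V := nhdsWithin_le_nhds (hV.mem_nhds hw)
      filter_upwards [h2, h3] with w' h4 h5 using hdiff w' h5 h4
  exact (Complex.analyticAt_of_differentiable_on_punctured_nhds_of_continuousAt hpunct
    (hcont w hw)).differentiableAt.differentiableWithinAt

end MP895317
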