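import Pool.Agent.Q181.Toep.H2

open Set Topology Filter Metric
open scoped InnerProductSpace

namespace MP895317

/-- `h = (1 - z B)⁻¹ f`. -/
noncomputable def hv (f : H2) (z : ℂ) : H2 := ∑' k : ℕ, z ^ k • ((B ^ k) f)

theorem norm_Bpow_le (f : H2) (k : ℕ) : ‖(B ^ k) f‖ ≤ ‖f‖ := by
  induction k with
  | zero => simp
  | succ k ih => rw [pow_succ', mul_apply_eq_comp]; exact (norm_B_le _).trans ih

theorem summable_hv (f : H2) {z : ℂ} (hz : ‖z‖ < 1) : Summable fun k : ℕ => z ^ k • ((B ^ k) f) := by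
  refine Summable.of_norm_bounded (g := fun n => ‖z‖ ^ n * ‖f‖) ?_ ?_
  · exact (summable_geometric_of_lt_one (norm_nonneg _) hz).mul_right _
  · intro n
    rw [norm_smul, norm_pow]
    exact mul_le_mul_of_nonneg_left (norm_Bpow_le f n) (by positivity)

theorem hv_eq (f : H2) {z : ℂ} (hz : ‖z‖ < 1) : hv f z = f + z • B (hv f z) := by
  have hs := summable_hv f hz
  have h1 : B (hv f z) = ∑' k : ℕ, z ^ k • ((B ^ (k + 1)) f) := by
    rw [hv, ContinuousLinearMap.map_tsum _ hs]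
    congr 1; funext k
    rw [map_smul, pow_succ', mul_apply_eq_comp]
  rw [h1, ← tsum_const_smul'', hv, hs.tsum_eq_zero_add]
  congr 1
  · simp
  · congr 1; funext k
    rw [smul_smul, pow_succ' z]

theorem Bpow_apply (f : H2) (k n : ℕ) : (B ^ k) f n = f (n + k) := by
  induction k generalizing n with
  | zero => simp
  | succ k ih => rw [pow_succ', mul_apply_eq_comp, B_apply, ih, show n + 1 + k = n + (k + 1) by omega]

theorem hv_zero (f : H2) {z : ℂ} (hz : ‖z‖ < 1) : hv f z 0 = ev f z := by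
  have h1 : hv f z 0 = lp.evalCLM ℂ (fun _ : ℕ => ℂ) 2 0 (hv f z) := rfl
  rw [h1, hv, ContinuousLinearMap.map_tsum _ (summable_hv f hz), ev]
  congr 1; funext k
  rw [map_smul]
  have : lp.evalCLM ℂ (fun _ : ℕ => ℂ) 2 0 ((B ^ k) f) = f k := by
    have : lp.evalCLM ℂ (fun _ : ℕ => ℂ) 2 0 ((B ^ k) f) = (B ^ k) f 0 := rfl
    rw [this, Bpow_apply, zero_add]
  rw [this, smul_eq_mul, mul_comm]

/-- the holomorphic function whose real part majorises `|f|²`. -/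
noncomputable def Fz (f : H2) (z : ℂ) : ℂ := 2 * ⟪f, hv f z⟫_ℂ - (‖f‖ : ℂ) ^ 2

theorem norm_sq_hv (f : H2) {z : ℂ} (hz : ‖z‖ < 1) :
    (Fz f z).re = ‖hv f z‖ ^ 2 - ‖z‖ ^ 2 * ‖B (hv f z)‖ ^ 2 := by
  set h := hv f z with hh
  have e : f = h - z • B h := eq_sub_of_add_eq (hv_eq f hz).symm
  have h1 : ‖f‖ ^ 2 = ‖h‖ ^ 2 - 2 * (⟪z • B h, h⟫_ℂ).re + ‖z • B h‖ ^ 2 := by
    have := norm_sub_sq (𝕜 := ℂ) h (z • B h)
    rw [← e] at this
    rw [this, inner_re_symm (𝕜 := ℂ) h (z • B h)]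
    rfl
  have h2 : (⟪f, h⟫_ℂ).re = ‖h‖ ^ 2 - (⟪z • B h, h⟫_ℂ).re := by
    have : ⟪f, h⟫_ℂ = ⟪h, h⟫_ℂ - ⟪z • B h, h⟫_ℂ := by
      conv_lhs => rw [e]
      rw [inner_sub_left]
    rw [this, Complex.sub_re, inner_self_eq_norm_sq_to_K]
    norm_cast
  have h3 : (Fz f z).re = 2 * (⟪f, h⟫_ℂ).re - ‖f‖ ^ 2 := by
    rw [Fz, Complex.sub_re, ← hh]
    congr 1
    · simp
    · norm_cast
  rw [h3, h2, h1, norm_smul]
  ring

theorem ev_sq_le (f : H2) {z : ℂ} (hz : ‖z‖ < 1) : ‖ev f z‖ ^ 2 ≤ (Fz f z).re := by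
  rw [norm_sq_hv f hz]
  have h1 := norm_sq_split (hv f z)
  have h2 : ‖Bfun (hv f z)‖ = ‖B (hv f z)‖ := rfl
  rw [h2, hv_zero f hz] at h1
  rw [h1]
  have h3 : ‖z‖ ^ 2 ≤ 1 := by
    have := norm_nonneg z
    nlinarith
  nlinarith [sq_nonneg ‖B (hv f z)‖]

theorem Fz_re_le (f : H2) {z : ℂ} (hz : ‖z‖ < 1) : (Fz f z).re ≤ (‖f‖ / (1 - ‖z‖)) ^ 2 := by
  rw [norm_sq_hv f hz]
  have h1 : ‖hv f z‖ ≤ ‖f‖ / (1 - ‖z‖) := by
    have h2 := norm_add_le f (z • B (hv f z))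
    rw [← hv_eq f hz, norm_smul] at h2
    have h3 := mul_le_mul_of_nonneg_left (norm_B_le (hv f z)) (norm_nonneg z)
    rw [le_div_iff₀ (by linarith)]
    linarith
  have h4 : ‖hv f z‖ ^ 2 ≤ (‖f‖ / (1 - ‖z‖)) ^ 2 := pow_le_pow_left₀ (norm_nonneg _) h1 2
  nlinarith [sq_nonneg ‖B (hv f z)‖, sq_nonneg ‖z‖, mul_nonneg (sq_nonneg ‖z‖) (sq_nonneg ‖B (hv f z)‖)]

theorem Fz_diff (f : H2) : DifferentiableOn ℂ (Fz f) (ball 0 1) := by
  have h1 : DifferentiableOn ℂ (fun z : ℂ => ∑' k, ⟪f, (B ^ k) f⟫_ℂ * z ^ k) (ball 0 1) := by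
    apply diff_of_bounded _ (‖f‖ * ‖f‖)
    intro n
    exact (norm_inner_le_norm _ _).trans (mul_le_mul_of_nonneg_left (norm_Bpow_le f n) (norm_nonneg _))
  have h2 : ∀ z ∈ ball (0 : ℂ) 1, ⟪f, hv f z⟫_ℂ = ∑' k, ⟪f, (B ^ k) f⟫_ℂ * z ^ k := by
    intro z hz
    rw [mem_ball_zero_iff] at hz
    have := (innerSL ℂ f).map_tsum (summable_hv f hz)
    rw [innerSL_apply_apply] at this
    rw [hv, this]
    congr 1; funext k
    rw [innerSL_apply_apply, inner_smul_right, mul_comm]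
  have h3 : DifferentiableOn ℂ (fun z => ⟪f, hv f z⟫_ℂ) (ball 0 1) := h1.congr h2
  exact (h3.const_mul 2).sub_const _

/-- Littlewood's inequality -/
theorem littlewood (ψ : ℂ → ℂ) (hψ : DifferentiableOn ℂ ψ (ball 0 1))
    (hψm : MapsTo ψ (ball 0 1) (ball 0 1)) (f : H2) (ρ : ℝ) (h0 : 0 < ρ) (h1 : ρ < 1) :
    Real.circleAverage (fun w => ‖ev f (ψ w)‖ ^ 2) 0 ρ ≤ (‖f‖ / (1 - ‖ψ 0‖)) ^ 2 := by
  have habs : |ρ| = ρ := abs_of_pos h0
  have hsub : closedBall (0 : ℂ) ρ ⊆ ball 0 1 := closedBall_subset_ball h1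
  have hsph : sphere (0 : ℂ) |ρ| ⊆ ball 0 1 := by
    rw [habs]; exact sphere_subset_closedBall.trans hsub
  have hcomp : DifferentiableOn ℂ (fun w => Fz f (ψ w)) (ball 0 1) := (Fz_diff f).comp hψ hψm
  have hevc : DifferentiableOn ℂ (fun w => ev f (ψ w)) (ball 0 1) := (ev_diff f).comp hψ hψm
  have hmean : Real.circleAverage (fun w => Fz f (ψ w)) 0 ρ = Fz f (ψ 0) := by
    apply DiffContOnCl.circleAverage
    rw [habs]
    apply DifferentiableOn.diffContOnCl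
    rw [closure_ball _ h0.ne']
    exact hcomp.mono hsub
  have hint : CircleIntegrable (fun w => Fz f (ψ w)) 0 ρ :=
    ContinuousOn.circleIntegrable' (hcomp.continuousOn.mono hsph)
  have hre : Real.circleAverage (fun w => (Fz f (ψ w)).re) 0 ρ = (Fz f (ψ 0)).re := by
    have := Complex.reCLM.circleAverage_comp_comm hint
    rw [hmean] at this
    exact this
  calc Real.circleAverage (fun w => ‖ev f (ψ w)‖ ^ 2) 0 ρ
      ≤ Real.circleAverage (fun w => (Fz f (ψ w)).re) 0 ρ := by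
        apply Real.circleAverage_mono
        · apply ContinuousOn.circleIntegrable'
          exact (hevc.continuousOn.mono hsph).norm.pow 2
        · apply ContinuousOn.circleIntegrable'
          exact Complex.continuous_re.comp_continuousOn (hcomp.continuousOn.mono hsph)
        · intro w hw
          exact ev_sq_le f (mem_ball_zero_iff.1 (hψm (hsph hw)))
    _ = (Fz f (ψ 0)).re := hre
    _ ≤ _ := Fz_re_le f (mem_ball_zero_iff.1 (hψm (mem_ball_self one_pos)))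

end MP895317
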