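import Pool.Agent.Q181.Toep.Inverse

open Set Topology Filter Metric

namespace MP895317

/-- `T` is hypercyclic: some orbit is dense. -/
def Hypercyclic (T : H2 →L[ℂ] H2) : Prop := ∃ x : H2, DenseRange fun n : ℕ => (T ^ n) x

/-- The action of the Toeplitz operator with symbol `γ/z + φ(z)`. -/
def Acts (γ : ℂ) (φ : ℂ → ℂ) (T : H2 →L[ℂ] H2) : Prop :=
  ∀ (f : H2) (z : ℂ), ‖z‖ < 1 → z * ev (T f) z = (γ + z * φ z) * ev f z - γ * f 0

theorem acts_of (γ : ℂ) (φ : ℂ → ℂ) (M : H2 →L[ℂ] H2)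
    (hM : ∀ (f : H2) (z : ℂ), ‖z‖ < 1 → ev (M f) z = φ z * ev f z) : Acts γ φ (γ • B + M) := by
  intro f z hz
  have h1 : (γ • B + M) f = γ • B f + M f := rfl
  rw [h1, ev_add _ _ hz, ev_smul, hM f z hz]
  have h2 := ev_split f hz
  linear_combination γ * h2 * (-1)

/-- the constant function one -/
noncomputable def one : H2 := lp.single 2 0 1

theorem one_zero : one 0 = 1 := lp.single_apply_self _ _ _

theorem one_succ (n : ℕ) : one (n + 1) = 0 := lp.single_apply_ne _ _ _ (by omega)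

theorem ev_one (z : ℂ) : ev one z = 1 := by
  rw [ev, tsum_eq_single 0]
  · simp [one_zero]
  · intro n hn
    obtain ⟨k, rfl⟩ := Nat.exists_eq_succ_of_ne_zero hn
    rw [one_succ]; simp

theorem pow_apply_succ (T : H2 →L[ℂ] H2) (n : ℕ) (x : H2) : (T ^ (n + 1)) x = T ((T ^ n) x) := by
  rw [pow_succ']; rfl

theorem pow_apply_add (T : H2 →L[ℂ] H2) (m n : ℕ) (x : H2) :
    (T ^ (m + n)) x = (T ^ m) ((T ^ n) x) := by
  rw [pow_add]; rfl

/-- a hypercyclic operator has no eigenfunctional -/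
theorem no_eigenfunctional {T : H2 →L[ℂ] H2} (hT : Hypercyclic T) (l : H2 →L[ℂ] ℂ) (lam : ℂ)
    (hl : ∀ f, l (T f) = lam * l f) : l = 0 := by
  by_contra hne
  obtain ⟨x, hx⟩ := hT
  have hsurj : Function.Surjective l := by
    have : ∃ y, l y ≠ 0 := by
      by_contra hcon
      push Not at hcon
      exact hne (ContinuousLinearMap.ext hcon)
    obtain ⟨y, hy⟩ := this
    intro c
    exact ⟨(c / l y) • y, by rw [map_smul, smul_eq_mul, div_mul_cancel₀ _ hy]⟩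
  have hd : DenseRange (fun n : ℕ => l ((T ^ n) x)) := hsurj.denseRange.comp hx l.continuous
  have hval : ∀ n : ℕ, l ((T ^ n) x) = lam ^ n * l x := by
    intro n
    induction n with
    | zero => simp
    | succ n ih => rw [pow_apply_succ, hl, ih]; ring
  rw [Metric.denseRange_iff] at hd
  by_cases hc : l x = 0
  · obtain ⟨n, hn⟩ := hd 1 (1 / 2) (by norm_num)
    rw [hval, hc, mul_zero, dist_zero_right, norm_one] at hn
    norm_num at hn
  · have hpos : 0 < ‖l x‖ := norm_pos_iff.2 hc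
    by_cases h1 : ‖lam‖ ≤ 1
    · obtain ⟨n, hn⟩ := hd ((2 * ‖l x‖ : ℝ) : ℂ) ‖l x‖ hpos
      rw [hval] at hn
      have h2 : ‖lam ^ n * l x‖ ≤ ‖l x‖ := by
        rw [norm_mul, norm_pow]
        exact mul_le_of_le_one_left (norm_nonneg _) (pow_le_one₀ (norm_nonneg _) h1)
      have h3 : ‖((2 * ‖l x‖ : ℝ) : ℂ)‖ = 2 * ‖l x‖ := by
        rw [Complex.norm_real, Real.norm_eq_abs, abs_of_pos (by positivity)]
      have h4 := norm_sub_norm_le ((2 * ‖l x‖ : ℝ) : ℂ) (lam ^ n * l x)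
      rw [h3, ← dist_eq_norm] at h4
      linarith
    · obtain ⟨n, hn⟩ := hd 0 ‖l x‖ hpos
      rw [hval, dist_zero_left] at hn
      have h2 : ‖l x‖ ≤ ‖lam ^ n * l x‖ := by
        rw [norm_mul, norm_pow]
        exact le_mul_of_one_le_left (norm_nonneg _) (one_le_pow₀ (not_le.1 h1).le)
      linarith

/-- the symbol of a hypercyclic `T_Φ` is univalent -/
theorem injective_symbol {γ : ℂ} {φ : ℂ → ℂ} {T : H2 →L[ℂ] H2} (hA : Acts γ φ T)
    (hT : Hypercyclic T) : InjOn (fun z => γ / z + φ z) (ball 0 1 \ {0}) := by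
  intro z₁ h₁ z₂ h₂ heq
  by_contra hne
  have hz1 : ‖z₁‖ < 1 := mem_ball_zero_iff.1 h₁.1
  have hz2 : ‖z₂‖ < 1 := mem_ball_zero_iff.1 h₂.1
  have h01 : z₁ ≠ 0 := h₁.2
  have h02 : z₂ ≠ 0 := h₂.2
  beta_reduce at heq
  have key := no_eigenfunctional hT (z₁ • evL z₁ hz1 - z₂ • evL z₂ hz2) (γ / z₁ + φ z₁) (by
    intro f
    have e1 := hA f z₁ hz1
    have e2 := hA f z₂ hz2
    simp only [sub_apply, smul_apply, evL_apply,
      smul_eq_mul]
    rw [e1, e2]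
    have g1 : γ + z₁ * φ z₁ = z₁ * (γ / z₁ + φ z₁) := by field_simp
    have g2 : γ + z₂ * φ z₂ = z₂ * (γ / z₁ + φ z₁) := by rw [heq]; field_simp
    rw [g1, g2]; ring)
  have h3 := congrArg (fun l : H2 →L[ℂ] ℂ => l one) key
  simp only [sub_apply, smul_apply, evL_apply,
    smul_eq_mul, ev_one, mul_one, zero_apply] at h3
  exact hne (sub_eq_zero.1 h3)

theorem gamma_ne {γ : ℂ} {φ : ℂ → ℂ} {T : H2 →L[ℂ] H2}
    (hA : Acts γ φ T) (hT : Hypercyclic T) : γ ≠ 0 := by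
  rintro rfl
  have h0 : ‖(0 : ℂ)‖ < 1 := by simp
  have key := no_eigenfunctional hT (evL (1 / 2) (by norm_num)) (φ (1 / 2)) (by
    intro f
    have e := hA f (1 / 2) (by norm_num)
    simp only [evL_apply]
    linear_combination 2 * e)
  have h3 := congrArg (fun l : H2 →L[ℂ] ℂ => l one) key
  simp [ev_one] at h3

/-- circle averages of negative powers vanish -/
theorem average_inv_pow (n : ℕ) {ρ : ℝ} (hρ : 0 < ρ) :
    Real.circleAverage (fun w : ℂ => (w⁻¹) ^ (n + 1)) 0 ρ = 0 := by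
  rw [Real.circleAverage_eq_circleIntegral hρ.ne']
  have h1 : (∮ z in C(0, ρ), (z - 0)⁻¹ • (z⁻¹) ^ (n + 1)) = ∮ z in C(0, ρ), (z - 0) ^ (-(n + 2 : ℤ)) := by
    apply circleIntegral.integral_congr hρ.le
    intro z hz
    have hz0 : z ≠ 0 := by
      rintro rfl
      simp [hρ.ne] at hz
    simp only [sub_zero, smul_eq_mul, zpow_neg, inv_pow]
    rw [show ((n : ℤ) + 2) = ((n + 2 : ℕ) : ℤ) by push_cast; ring, zpow_natCast, ← mul_inv]
    congr 1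
    ring
  rw [h1, circleIntegral.integral_sub_zpow_of_ne (by omega)]
  simp

section Core

variable {γ : ℂ} {φ ψ : ℂ → ℂ} {T : H2 →L[ℂ] H2}

/-- the transform `G_f(w) = ψ(w) f(ψ(w))` -/
noncomputable def G (ψ : ℂ → ℂ) (f : H2) (w : ℂ) : ℂ := ψ w * ev f (ψ w)

theorem G_diff (hψ : DifferentiableOn ℂ ψ (ball 0 1)) (hψm : MapsTo ψ (ball 0 1) (ball 0 1))
    (f : H2) : DifferentiableOn ℂ (G ψ f) (ball 0 1) :=
  hψ.mul ((ev_diff f).comp hψ hψm)

theorem G_T (hA : Acts γ φ T) (hψm : MapsTo ψ (ball 0 1) (ball 0 1))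
    (hinv : ∀ w ∈ ball (0 : ℂ) 1, ψ w ≠ 0 ∧ γ / ψ w + φ (ψ w) = w) (f : H2) {w : ℂ}
    (hw : w ∈ ball (0 : ℂ) 1) : G ψ (T f) w = w * G ψ f w - γ * f 0 := by
  have e := hA f (ψ w) (mem_ball_zero_iff.1 (hψm hw))
  obtain ⟨h1, h2⟩ := hinv w hw
  have g1 : γ + ψ w * φ (ψ w) = ψ w * w := by
    have h3 : ψ w * (γ / ψ w + φ (ψ w)) = γ + ψ w * φ (ψ w) := by field_simp
    rw [h2] at h3
    exact h3.symm
  rw [G, G, e, g1]; ring

/-- the functionals -/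
noncomputable def L (ψ : ℂ → ℂ) (n : ℕ) (ρ : ℝ) (f : H2) : ℂ :=
  Real.circleAverage (fun w => (w⁻¹) ^ n * G ψ f w) 0 ρ

theorem sphere_sub {ρ : ℝ} (h0 : 0 < ρ) (h1 : ρ < 1) : sphere (0 : ℂ) |ρ| ⊆ ball 0 1 := by
  rw [abs_of_pos h0]
  exact sphere_subset_closedBall.trans (closedBall_subset_ball h1)

theorem sphere_ne {ρ : ℝ} (h0 : 0 < ρ) {w : ℂ} (hw : w ∈ sphere (0 : ℂ) |ρ|) : w ≠ 0 := by
  rintro rfl
  rw [mem_sphere_zero_iff_norm, norm_zero, abs_of_pos h0] at hw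
  exact h0.ne hw

theorem L_integrable (hψ : DifferentiableOn ℂ ψ (ball 0 1))
    (hψm : MapsTo ψ (ball 0 1) (ball 0 1)) (n : ℕ) {ρ : ℝ} (h0 : 0 < ρ) (h1 : ρ < 1) (f : H2) :
    CircleIntegrable (fun w => (w⁻¹) ^ n * G ψ f w) 0 ρ := by
  apply ContinuousOn.circleIntegrable'
  apply ContinuousOn.mul
  · apply ContinuousOn.pow
    exact continuousOn_id.inv₀ fun w hw => sphere_ne h0 hw
  · exact (G_diff hψ hψm f).continuousOn.mono (sphere_sub h0 h1)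

theorem L_succ (hA : Acts γ φ T) (hψ : DifferentiableOn ℂ ψ (ball 0 1))
    (hψm : MapsTo ψ (ball 0 1) (ball 0 1))
    (hinv : ∀ w ∈ ball (0 : ℂ) 1, ψ w ≠ 0 ∧ γ / ψ w + φ (ψ w) = w) (n : ℕ) {ρ : ℝ} (h0 : 0 < ρ)
    (h1 : ρ < 1) (f : H2) : L ψ (n + 1) ρ (T f) = L ψ n ρ f := by
  have e1 : L ψ (n + 1) ρ (T f) = Real.circleAverage
      (fun w => (w⁻¹) ^ n * G ψ f w - (γ * f 0) • (w⁻¹) ^ (n + 1)) 0 ρ := by
    apply Real.circleAverage_congr_sphere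
    intro w hw
    beta_reduce
    rw [G_T hA hψm hinv f (sphere_sub h0 h1 hw), smul_eq_mul]
    have hw0 := sphere_ne h0 hw
    linear_combination (w⁻¹) ^ n * G ψ f w * (inv_mul_cancel₀ hw0)
  rw [e1, Real.circleAverage_fun_sub (L_integrable hψ hψm n h0 h1 f), Real.circleAverage_fun_smul,
    average_inv_pow n h0]
  · simp [L]
  · apply ContinuousOn.circleIntegrable'
    have hc : ContinuousOn (fun w : ℂ => (w⁻¹) ^ (n + 1)) (sphere 0 |ρ|) :=
      (continuousOn_id.inv₀ fun w hw => sphere_ne h0 hw).pow (n + 1)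
    exact hc.const_smul (γ * f 0)

theorem L_zero (hA : Acts γ φ T) (hψ : DifferentiableOn ℂ ψ (ball 0 1))
    (hψm : MapsTo ψ (ball 0 1) (ball 0 1))
    (hinv : ∀ w ∈ ball (0 : ℂ) 1, ψ w ≠ 0 ∧ γ / ψ w + φ (ψ w) = w) {ρ : ℝ} (h0 : 0 < ρ)
    (h1 : ρ < 1) (f : H2) : L ψ 0 ρ (T f) = -(γ * f 0) := by
  have e1 : L ψ 0 ρ (T f) = Real.circleAverage (G ψ (T f)) 0 ρ := by
    simp [L]
  rw [e1, DiffContOnCl.circleAverage, G_T hA hψm hinv f (mem_ball_self one_pos)]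
  · simp
  · rw [abs_of_pos h0]
    apply DifferentiableOn.diffContOnCl
    rw [closure_ball _ h0.ne']
    exact (G_diff hψ hψm (T f)).mono (closedBall_subset_ball h1)

theorem L_pow (hA : Acts γ φ T) (hψ : DifferentiableOn ℂ ψ (ball 0 1))
    (hψm : MapsTo ψ (ball 0 1) (ball 0 1))
    (hinv : ∀ w ∈ ball (0 : ℂ) 1, ψ w ≠ 0 ∧ γ / ψ w + φ (ψ w) = w) {ρ : ℝ} (h0 : 0 < ρ)
    (h1 : ρ < 1) (f : H2) (n : ℕ) : L ψ n ρ ((T ^ (n + 1)) f) = -(γ * f 0) := by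
  induction n with
  | zero => simpa using L_zero hA hψ hψm hinv h0 h1 f
  | succ n ih => rw [pow_apply_succ, L_succ hA hψ hψm hinv n h0 h1, ih]

/-- the bound for the functionals -/
theorem L_bound (hψ : DifferentiableOn ℂ ψ (ball 0 1))
    (hψm : MapsTo ψ (ball 0 1) (ball 0 1)) (n : ℕ) {ρ : ℝ} (h0 : 0 < ρ) (h1 : ρ < 1) (f : H2) :
    ‖L ψ n ρ f‖ ≤ (ρ⁻¹) ^ n * (((1 / (1 - ‖ψ 0‖)) ^ 2 + 1) / 2 * ‖f‖) := by
  have hunit : ∀ g : H2, ‖g‖ = 1 →
      ‖L ψ n ρ g‖ ≤ (ρ⁻¹) ^ n * (((1 / (1 - ‖ψ 0‖)) ^ 2 + 1) / 2) := by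
    intro g hg
    have hlw := littlewood ψ hψ hψm g ρ h0 h1
    rw [hg] at hlw
    have hcont : ContinuousOn (fun w => ev g (ψ w)) (sphere 0 |ρ|) :=
      ((ev_diff g).comp hψ hψm).continuousOn.mono (sphere_sub h0 h1)
    have hint2 : CircleIntegrable (fun w => ‖ev g (ψ w)‖ ^ 2) 0 ρ :=
      ContinuousOn.circleIntegrable' (hcont.norm.pow 2)
    have hkey : ‖L ψ n ρ g‖ ≤ Real.circleAverage (fun w => (ρ⁻¹) ^ n * ((‖ev g (ψ w)‖ ^ 2 + 1) / 2)) 0 ρ := by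
      rw [L, Real.circleAverage, Real.circleAverage, norm_smul, smul_eq_mul]
      have hpi : 0 ≤ ‖(2 * Real.pi)⁻¹‖ := norm_nonneg _
      have hpi2 : ‖(2 * Real.pi)⁻¹‖ = (2 * Real.pi)⁻¹ := by
        rw [Real.norm_eq_abs, abs_of_pos (by positivity)]
      rw [hpi2]
      apply mul_le_mul_of_nonneg_left _ (by positivity)
      refine (intervalIntegral.norm_integral_le_integral_norm (by positivity)).trans ?_
      apply intervalIntegral.integral_mono_on (by positivity)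
      · exact (L_integrable hψ hψm n h0 h1 g).norm
      · have : CircleIntegrable (fun w => (ρ⁻¹) ^ n * ((‖ev g (ψ w)‖ ^ 2 + 1) / 2)) 0 ρ := by
          apply ContinuousOn.circleIntegrable'
          exact continuousOn_const.mul (((hcont.norm.pow 2).add continuousOn_const).div_const 2)
        exact this
      · intro θ _
        have hw : circleMap 0 ρ θ ∈ sphere (0 : ℂ) |ρ| := circleMap_mem_sphere' 0 ρ θ
        set w := circleMap 0 ρ θ
        have hn : ‖w‖ = ρ := by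
          rw [mem_sphere_zero_iff_norm, abs_of_pos h0] at hw; exact hw
        rw [norm_mul, norm_pow, norm_inv, hn]
        apply mul_le_mul_of_nonneg_left _ (by positivity)
        rw [G, norm_mul]
        have h2 : ‖ψ w‖ ≤ 1 := (mem_ball_zero_iff.1 (hψm (sphere_sub h0 h1 hw))).le
        have h3 : ‖ψ w‖ * ‖ev g (ψ w)‖ ≤ ‖ev g (ψ w)‖ := mul_le_of_le_one_left (norm_nonneg _) h2
        nlinarith [sq_nonneg (‖ev g (ψ w)‖ - 1)]
    refine hkey.trans ?_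
    have e1 : Real.circleAverage (fun w => (ρ⁻¹) ^ n * ((‖ev g (ψ w)‖ ^ 2 + 1) / 2)) 0 ρ =
        (ρ⁻¹) ^ n * ((Real.circleAverage (fun w => ‖ev g (ψ w)‖ ^ 2) 0 ρ + 1) / 2) := by
      have : (fun w => (ρ⁻¹) ^ n * ((‖ev g (ψ w)‖ ^ 2 + 1) / 2)) =
          fun w => ((ρ⁻¹) ^ n / 2) • (‖ev g (ψ w)‖ ^ 2 + 1) := by
        funext w; rw [smul_eq_mul]; ring
      rw [this, Real.circleAverage_fun_smul, Real.circleAverage_fun_add hint2 (by
        exact ContinuousOn.circleIntegrable' continuousOn_const), Real.circleAverage_const, smul_eq_mul]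
      ring
    rw [e1]
    have hp : 0 ≤ (ρ⁻¹) ^ n := by positivity
    apply mul_le_mul_of_nonneg_left _ hp
    linarith
  by_cases hf : f = 0
  · subst hf
    have : G ψ 0 = fun _ => 0 := by funext w; simp [G, ev]
    have : L ψ n ρ 0 = 0 := by simp [L, this, Real.circleAverage]
    rw [this]; simp
  · have hfn : 0 < ‖f‖ := norm_pos_iff.2 hf
    set g : H2 := ((‖f‖ : ℂ)⁻¹) • f with hg
    have hgn : ‖g‖ = 1 := by
      rw [hg, norm_smul, norm_inv, Complex.norm_real, norm_norm, inv_mul_cancel₀ hfn.ne']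
    have hfg : f = (‖f‖ : ℂ) • g := by
      rw [hg, smul_smul, mul_inv_cancel₀ (by exact_mod_cast hfn.ne'), one_smul]
    have hL : L ψ n ρ f = (‖f‖ : ℂ) • L ψ n ρ g := by
      rw [L, L, ← Real.circleAverage_fun_smul]
      congr 1
      funext w
      conv_lhs => rw [hfg]
      rw [G, G, ev_smul, smul_eq_mul]; ring
    rw [hL, norm_smul, Complex.norm_real, norm_norm]
    have := hunit g hgn
    calc ‖f‖ * ‖L ψ n ρ g‖ ≤ ‖f‖ * ((ρ⁻¹) ^ n * (((1 / (1 - ‖ψ 0‖)) ^ 2 + 1) / 2)) :=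
          mul_le_mul_of_nonneg_left this hfn.le
      _ = _ := by ring

theorem coeff_bound (hA : Acts γ φ T) (hψ : DifferentiableOn ℂ ψ (ball 0 1))
    (hψm : MapsTo ψ (ball 0 1) (ball 0 1))
    (hinv : ∀ w ∈ ball (0 : ℂ) 1, ψ w ≠ 0 ∧ γ / ψ w + φ (ψ w) = w) (f : H2) (n : ℕ) :
    ‖γ * f 0‖ ≤ ((1 / (1 - ‖ψ 0‖)) ^ 2 + 1) / 2 * ‖(T ^ (n + 1)) f‖ := by
  have h1 : ∀ ρ : ℝ, 0 < ρ → ρ < 1 → ‖γ * f 0‖ ≤
      (ρ⁻¹) ^ n * (((1 / (1 - ‖ψ 0‖)) ^ 2 + 1) / 2 * ‖(T ^ (n + 1)) f‖) := by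
    intro ρ h0 h1
    have := L_bound hψ hψm n h0 h1 ((T ^ (n + 1)) f)
    rwa [L_pow hA hψ hψm hinv h0 h1, norm_neg] at this
  set Q := ((1 / (1 - ‖ψ 0‖)) ^ 2 + 1) / 2 * ‖(T ^ (n + 1)) f‖
  have h2 : Tendsto (fun ρ : ℝ => (ρ⁻¹) ^ n * Q) (𝓝[<] 1) (𝓝 Q) := by
    have h3 : Tendsto (fun ρ : ℝ => (ρ⁻¹) ^ n * Q) (𝓝 1) (𝓝 (((1 : ℝ)⁻¹) ^ n * Q)) :=
      (((tendsto_id.inv₀ one_ne_zero).pow n)).mul_const Q
    rw [inv_one, one_pow, one_mul] at h3
    exact h3.mono_left nhdsWithin_le_nhds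
  apply ge_of_tendsto h2
  have h4 : ∀ᶠ ρ : ℝ in 𝓝[<] 1, ρ < 1 := eventually_mem_nhdsWithin
  have h5 : ∀ᶠ ρ : ℝ in 𝓝[<] 1, 0 < ρ := nhdsWithin_le_nhds (Ioi_mem_nhds one_pos)
  filter_upwards [h4, h5] with ρ h6 h7 using h1 ρ h7 h6

end Core

/-- If `𝔻 ⊆ Φ(𝔻 ∖ {0})` then `T_Φ` is not hypercyclic. -/
theorem not_covered {γ : ℂ} {φ : ℂ → ℂ} {T : H2 →L[ℂ] H2} (hφ : DifferentiableOn ℂ φ (ball 0 1))
    (hA : Acts γ φ T) (hT : Hypercyclic T) :
    ¬ (ball (0 : ℂ) 1 ⊆ (fun z => γ / z + φ z) '' (ball 0 1 \ {0})) := by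
  intro hcov
  have hγ := gamma_ne hA hT
  have hinj := injective_symbol hA hT
  have hU : IsOpen (ball (0 : ℂ) 1 \ {0}) := isOpen_ball.sdiff isClosed_singleton
  have hΦ : DifferentiableOn ℂ (fun z => γ / z + φ z) (ball (0 : ℂ) 1 \ {0}) := by
    apply DifferentiableOn.add
    · exact (differentiableOn_const γ).div differentiableOn_id fun z hz => hz.2
    · exact hφ.mono sdiff_subset
  obtain ⟨ψ, hψ, hψ2⟩ := inverse_holomorphic hU hΦ hinj isOpen_ball hcov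
  have hψm : MapsTo ψ (ball 0 1) (ball 0 1) := fun w hw => (hψ2 w hw).1.1
  have hinv : ∀ w ∈ ball (0 : ℂ) 1, ψ w ≠ 0 ∧ γ / ψ w + φ (ψ w) = w :=
    fun w hw => ⟨(hψ2 w hw).1.2, (hψ2 w hw).2⟩
  obtain ⟨x, hx⟩ := hT
  set Q := ((1 / (1 - ‖ψ 0‖)) ^ 2 + 1) / 2 with hQ
  have hQpos : 0 < Q := by positivity
  have hzero : ∀ j : ℕ, ((T ^ j) x) 0 = 0 := by
    intro j
    have hb : ∀ m : ℕ, j < m → ‖γ * ((T ^ j) x) 0‖ ≤ Q * ‖(T ^ m) x‖ := by
      intro m hm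
      obtain ⟨n, rfl⟩ : ∃ n, m = (n + 1) + j := ⟨m - j - 1, by omega⟩
      rw [pow_apply_add]
      exact coeff_bound hA hψ hψm hinv _ n
    have hnt : Nontrivial H2 := ⟨⟨one, 0, fun h => by
      have := one_zero
      rw [h] at this
      simp at this⟩⟩
    have hnb : ∀ y : H2, (𝓝[≠] y).NeBot := fun y => Module.punctured_nhds_neBot ℂ H2 y
    have htail : Dense (range (fun n : ℕ => (T ^ n) x) \ ((fun n : ℕ => (T ^ n) x) '' Iic j)) :=
      Dense.sdiff_finite hx ((finite_Iic j).image _)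
    have hle : ‖γ * ((T ^ j) x) 0‖ ≤ 0 := by
      apply le_of_forall_pos_le_add
      intro ε hε
      obtain ⟨y, hy, hyd⟩ := Metric.dense_iff.1 htail 0 (ε / Q) (by positivity)
      obtain ⟨⟨m, rfl⟩, hm⟩ := hyd
      have hjm : j < m := by
        by_contra hcon
        exact hm ⟨m, not_lt.1 hcon, rfl⟩
      have h1 := hb m hjm
      rw [mem_ball_zero_iff, lt_div_iff₀ hQpos] at hy
      linarith
    have h2 : γ * ((T ^ j) x) 0 = 0 := norm_le_zero_iff.1 hle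
    exact (mul_eq_zero.1 h2).resolve_left hγ
  have hclosed : IsClosed {f : H2 | f 0 = 0} := by
    have : {f : H2 | f 0 = 0} = (lp.evalCLM ℂ (fun _ : ℕ => ℂ) 2 0) ⁻¹' {0} := rfl
    rw [this]
    exact isClosed_singleton.preimage (ContinuousLinearMap.continuous _)
  have huniv : {f : H2 | f 0 = 0} = univ := by
    have h1 : Dense {f : H2 | f 0 = 0} := Dense.mono (by rintro _ ⟨n, rfl⟩; exact hzero n) hx
    rw [← h1.closure_eq, hclosed.closure_eq]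
  have : one ∈ {f : H2 | f 0 = 0} := by rw [huniv]; exact mem_univ _
  rw [mem_ofPred_eq, one_zero] at this
  exact one_ne_zero this

end MP895317
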