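import Pool.Agent.Q181.Toep.Main

open Set Topology Filter Metric
open scoped InnerProductSpace

namespace MP895317

section Outside

variable {γ : ℂ} {φ : ℂ → ℂ} {T : H2 →L[ℂ] H2}

theorem eq_of_ev {f g : H2} (h : ∀ z : ℂ, ‖z‖ < 1 → ev f z = ev g z) : f = g := by
  have : f + (-1 : ℂ) • g = 0 := by
    apply eq_zero_of_ev
    intro z hz
    rw [ev_add _ _ hz, ev_smul, h z hz]; ring
  rw [neg_one_smul] at this
  exact eq_of_sub_eq_zero (by rw [sub_eq_add_neg]; exact this)

/-- division by `z - μ` -/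
theorem exists_div (u : H2) {μ : ℂ} (hμ : ‖μ‖ < 1) (hu : ev u μ = 0) :
    ∃ e : H2, ∀ z : ℂ, ‖z‖ < 1 → ev u z = (z - μ) * ev e z := by
  refine ⟨hv (B u) μ, ?_⟩
  intro z hz
  set e := hv (B u) μ with he
  have h1 : e = B u + μ • B e := hv_eq (B u) hμ
  have h2 : ∀ w : ℂ, ‖w‖ < 1 → w * ev e w = (ev u w - u 0) + μ * (ev e w - e 0) := by
    intro w hw
    have e1 : ev e w = ev (B u) w + μ * ev (B e) w := by
      conv_lhs => rw [h1]
      rw [ev_add _ _ hw, ev_smul]
    have e2 := ev_split u hw
    have e3 := ev_split e hw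
    rw [e1] at *
    linear_combination (-1) * e2 - μ * e3
  have h3 := h2 μ hμ
  rw [hu] at h3
  have h4 := h2 z hz
  linear_combination (-1) * h4 + h3

theorem spectrum_of_not_image (hγ : γ ≠ 0) (hφ : DifferentiableOn ℂ φ (ball 0 1))
    (hA : Acts γ φ T) {lam : ℂ} (hlam : ∀ z : ℂ, ‖z‖ < 1 → z ≠ 0 → γ / z + φ z ≠ lam) :
    lam ∈ spectrum ℂ T := by
  by_contra hns
  rw [spectrum.notMem_iff] at hns
  have hns' : IsUnit (T - algebraMap ℂ (H2 →L[ℂ] H2) lam) := by
    rw [← IsUnit.neg_iff, neg_sub]; exact hns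
  obtain ⟨V, hV⟩ := hns'
  set R : H2 →L[ℂ] H2 := ((V⁻¹ : (H2 →L[ℂ] H2)ˣ) : H2 →L[ℂ] H2) with hR
  have hTR : ∀ h : H2, T (R h) - lam • (R h) = h := by
    intro h
    have h1 : (V : H2 →L[ℂ] H2) * R = 1 := V.mul_inv
    have h2 := congrArg (fun W : H2 →L[ℂ] H2 => W h) h1
    rw [hV] at h2
    simpa [Algebra.algebraMap_eq_smul_one] using h2
  -- injectivity
  have hinj : ∀ g : H2, T g - lam • g = 0 → g = 0 := by
    intro g hg
    have h1 : R * (V : H2 →L[ℂ] H2) = 1 := V.inv_mul
    have h2 := congrArg (fun W : H2 →L[ℂ] H2 => W g) h1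
    rw [hV] at h2
    have h3 : R (T g - lam • g) = g := by
      simpa [Algebra.algebraMap_eq_smul_one] using h2
    rw [hg, map_zero] at h3
    exact h3.symm
  -- the denominator
  set D : ℂ → ℂ := fun z => γ + z * (φ z - lam) with hD
  have hDne : ∀ z : ℂ, ‖z‖ < 1 → D z ≠ 0 := by
    intro z hz h0
    by_cases hz0 : z = 0
    · subst hz0
      simp only [hD, zero_mul, add_zero] at h0
      exact hγ h0
    · apply hlam z hz hz0
      simp only [hD] at h0
      field_simp
      linear_combination h0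
  have hact : ∀ (g : H2) (z : ℂ), ‖z‖ < 1 → z * ev (T g - lam • g) z = D z * ev g z - γ * g 0 := by
    intro g z hz
    have e1 := hA g z hz
    have e2 : ev (T g - lam • g) z = ev (T g) z - lam * ev g z := by
      have : T g - lam • g = T g + (-lam) • g := by rw [neg_smul, sub_eq_add_neg]
      rw [this, ev_add _ _ hz, ev_smul]; ring
    rw [e2]
    simp only [hD]
    linear_combination e1
  -- no solution of D e = 1
  have hno : ∀ e : H2, ¬ ∀ z : ℂ, ‖z‖ < 1 → D z * ev e z = 1 := by
    intro e he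
    have h0 : γ * e 0 = 1 := by
      have := he 0 (by simp)
      simp only [hD, zero_mul, add_zero, ev_zero] at this
      exact this
    have h1 : T e - lam • e = 0 := by
      apply eq_zero_of_ev
      have hs : S (T e - lam • e) = 0 := by
        apply eq_zero_of_ev
        intro z hz
        rw [ev_S _ hz, hact e z hz, he z hz, h0, sub_self]
      intro z _
      have hBS : ∀ g : H2, B (S g) = g := fun g => by ext n; rw [B_apply, S_succ]
      rw [← hBS (T e - lam • e), hs, map_zero]
      simp [ev]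
    have h2 := hinj e h1
    have := he 0 (by simp)
    rw [h2] at this
    simp [ev] at this
  -- resolvent formula
  have hres : ∀ (h : H2) (z : ℂ), ‖z‖ < 1 → D z * ev (R h) z = z * ev h z + γ * (R h) 0 := by
    intro h z hz
    have := hact (R h) z hz
    rw [hTR h] at this
    linear_combination (-1) * this
  set c : H2 →L[ℂ] ℂ := γ • ((lp.evalCLM ℂ (fun _ : ℕ => ℂ) 2 0).comp R) with hc
  have hcv : ∀ h, c h = γ * (R h) 0 := fun h => rfl
  set u : H2 := R one with hu
  have huD : ∀ z : ℂ, ‖z‖ < 1 → D z * ev u z = z + c one := by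
    intro z hz
    rw [hu, hres one z hz, ev_one, mul_one, hcv]
  have hk : ∀ h : H2, c (S h) + c h * c one = 0 := by
    intro h
    by_contra hne
    set κ := c (S h) + c h * c one with hκ
    set v : H2 := R (S h) + (-1 : ℂ) • S (R h) + (c h) • u with hv
    apply hno (κ⁻¹ • v)
    intro z hz
    rw [ev_smul, hv, ev_add _ _ hz, ev_add _ _ hz, ev_smul, ev_smul, ev_S _ hz]
    have e1 := hres (S h) z hz
    have e2 := hres h z hz
    have e3 := huD z hz
    rw [← hcv] at e1 e2
    rw [ev_S _ hz] at e1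
    have e4 : D z * (ev (R (S h)) z + -1 * (z * ev (R h) z) + c h * ev u z) = κ := by
      rw [hκ]; linear_combination e1 - z * e2 + c h * e3
    calc D z * (κ⁻¹ * (ev (R (S h)) z + -1 * (z * ev (R h) z) + c h * ev u z))
        = κ⁻¹ * (D z * (ev (R (S h)) z + -1 * (z * ev (R h) z) + c h * ev u z)) := by ring
      _ = 1 := by rw [e4, inv_mul_cancel₀ hne]
  set μ : ℂ := -c one with hμdef
  have hSone : ∀ n : ℕ, c ((S ^ n) one) = -μ * μ ^ n := by
    intro n
    induction n with
    | zero => simp [hμdef]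
    | succ n ih =>
      have h1 : (S ^ (n + 1)) one = S ((S ^ n) one) := by rw [pow_succ']; rfl
      have h2 := hk ((S ^ n) one)
      rw [← h1, ih] at h2
      have h3 : c one = -μ := by rw [hμdef, neg_neg]
      rw [h3] at h2
      have h4 : μ ^ (n + 1) = μ ^ n * μ := pow_succ μ n
      rw [h4]
      linear_combination h2
  have hμ : ‖μ‖ < 1 := by
    by_contra hge
    rw [not_lt] at hge
    obtain ⟨y, hy⟩ := (InnerProductSpace.toDual ℂ H2).surjective c
    have hcoord : ∀ n : ℕ, c ((S ^ n) one) = starRingEnd ℂ (y n) := by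
      intro n
      have h1 : (S ^ n) one = lp.single 2 n (1 : ℂ) := by
        induction n with
        | zero => simp [one]
        | succ n ih =>
          have h1 : (S ^ (n + 1)) one = S ((S ^ n) one) := by rw [pow_succ']; rfl
          rw [h1, ih]
          ext k
          rcases k with _ | k
          · rw [S_zero, lp.single_apply_ne _ _ _ (by omega)]
          · rw [S_succ]
            by_cases hkn : k = n
            · subst hkn; rw [lp.single_apply_self, lp.single_apply_self]
            · rw [lp.single_apply_ne _ _ _ hkn, lp.single_apply_ne _ _ _ (by omega)]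
      rw [h1, ← hy, InnerProductSpace.toDual_apply_apply, lp.inner_single_right]
      simp
    have hlim : Tendsto (fun n : ℕ => ‖y n‖ ^ 2) atTop (𝓝 0) := (summable_sq y).tendsto_atTop_zero
    have hbig : ∀ n : ℕ, 1 ≤ ‖y n‖ ^ 2 := by
      intro n
      have h1 : ‖y n‖ = ‖μ‖ ^ (n + 1) := by
        have h2 := hcoord n
        rw [hSone] at h2
        have h3 := congrArg norm h2
        rw [RCLike.norm_conj, norm_mul, norm_neg, norm_pow] at h3
        rw [← h3]; ring
      rw [h1]
      exact one_le_pow₀ (one_le_pow₀ hge)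
    have := ge_of_tendsto' hlim hbig
    norm_num at this
  have huμ : ev u μ = 0 := by
    have h1 := huD μ hμ
    have h2 : μ + c one = 0 := by rw [hμdef]; ring
    rw [h2] at h1
    exact (mul_eq_zero.1 h1).resolve_left (hDne μ hμ)
  obtain ⟨e, he⟩ := exists_div u hμ huμ
  have hpt : ∀ z : ℂ, ‖z‖ < 1 → z ≠ μ → D z * ev e z = 1 := by
    intro z hz hzμ
    have h1 := huD z hz
    rw [he z hz] at h1
    have h2 : z + c one = z - μ := by rw [hμdef]; ring
    rw [h2] at h1
    have h3 : z - μ ≠ 0 := sub_ne_zero.2 hzμ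
    have h4 : (z - μ) * (D z * ev e z - 1) = 0 := by linear_combination h1
    exact sub_eq_zero.1 ((mul_eq_zero.1 h4).resolve_left h3)
  apply hno e
  intro z hz
  by_cases hzμ : z = μ
  · rw [hzμ]
    have hDd : DifferentiableOn ℂ D (ball 0 1) := by
      apply (differentiableOn_const γ).add
      exact differentiableOn_id.mul (hφ.sub_const lam)
    have hc2 : ContinuousAt (fun w => D w * ev e w) μ :=
      ((hDd.mul (ev_diff e)).differentiableAt
        (isOpen_ball.mem_nhds (mem_ball_zero_iff.2 hμ))).continuousAt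
    have h1 : Tendsto (fun w => D w * ev e w) (𝓝[≠] μ) (𝓝 (D μ * ev e μ)) :=
      hc2.tendsto.mono_left nhdsWithin_le_nhds
    have h2 : Tendsto (fun w => D w * ev e w) (𝓝[≠] μ) (𝓝 1) := by
      refine tendsto_const_nhds.congr' ?_
      have h3 : ∀ᶠ w in 𝓝[≠] μ, w ≠ μ := eventually_mem_nhdsWithin
      have h4 : ∀ᶠ w in 𝓝[≠] μ, w ∈ ball (0 : ℂ) 1 :=
        nhdsWithin_le_nhds (isOpen_ball.mem_nhds (mem_ball_zero_iff.2 hμ))
      filter_upwards [h3, h4] with w h5 h6
      exact (hpt w (mem_ball_zero_iff.1 h6) h5).symm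
    exact tendsto_nhds_unique h1 h2
  · exact hpt z hz hzμ

end Outside

end MP895317
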